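import Pool.Agent.H18.TE.Targets
import Pool.Agent.H10.TD.LNX

/-!
# Module HLN: heights of the roots of a family of polynomials along a line
-/

set_option autoImplicit false

open MvPolynomial
open Pool.Agent.H12.ZD (pmap v O Res DenseOrbit NoInv)
open Pool.Agent.H18.HIT
open Pool.Agent.H8.ZA (HFam Const NA sz)
open Pool.Agent.H8.TD
open Pool.Agent.H18.TE

namespace Pool.Agent.H35.BKH

open Pool.Agent.H8.ZA (log_sz_finite one_le_sz sz_pos)
open Pool.Agent.H19.ZA (abv_int na_int)
open Pool.Agent.H10.TD (one_le_prodR le_prodR cn one_le_cn na_sum eval_le_cn an an_nonneg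
  eval_le_an low_big cn_const)

theorem bezG {n : ℕ} (p : Fin n → Polynomial Qb) (h : ∀ t : Qb, ∃ i, (p i).eval t ≠ 0) :
    ∃ U : Fin n → Polynomial Qb, ∑ i, U i * p i = 1 := by
  have htop : Ideal.span (Set.range p) = ⊤ := by
    obtain ⟨g, hg⟩ : ∃ g, Ideal.span (Set.range p) = Ideal.span {g} :=
      (IsPrincipalIdealRing.principal (Ideal.span (Set.range p))).principal
    have hdvd : ∀ i, g ∣ p i := by
      intro i
      rw [← Ideal.mem_span_singleton, ← hg]
      exact Ideal.subset_span ⟨i, rfl⟩
    rw [hg, Ideal.span_singleton_eq_top]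
    by_contra hu
    have hroot : ∃ t : Qb, g.IsRoot t := by
      by_cases hg0 : g = 0
      · exact ⟨0, by rw [hg0, Polynomial.IsRoot.def, Polynomial.eval_zero]⟩
      · apply IsAlgClosed.exists_root
        intro hd
        exact hu (Polynomial.isUnit_iff_degree_eq_zero.2 hd)
    obtain ⟨t, ht⟩ := hroot
    obtain ⟨i, hi⟩ := h t
    exact hi (Polynomial.IsRoot.dvd ht (hdvd i))
  have h1 : (1 : Polynomial Qb) ∈ Ideal.span (Set.range p) := by rw [htop]; trivial
  rw [Ideal.mem_span_range_iff_exists_fun] at h1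
  exact h1

theorem const_prodG {K : IntermediateField ℚ Qb} (F : HFam K) {ι : Type} (s : Finset ι)
    (C : ι → F.ι → ℝ) (h : ∀ j, Const F (C j)) : Const F fun i => ∏ j ∈ s, C j i := by
  classical
  induction s using Finset.induction_on with
  | empty =>
    simp only [Finset.prod_empty]
    exact Const.one F
  | insert a s ha ih =>
    simp only [Finset.prod_insert ha]
    exact (h a).mul ih

section gen

variable {L : Type} [Field L] (w : AbsoluteValue L ℝ)

theorem coef_na (hw : NA w) (s : Multiset L) (n : ℕ) :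
    w ((s.map fun r => Polynomial.X - Polynomial.C r).prod.coeff n) ≤
      (s.map fun r => max 1 (w r)).prod := by
  induction s using Multiset.induction_on generalizing n with
  | empty =>
    simp only [Multiset.map_zero, Multiset.prod_zero, Polynomial.coeff_one]
    split_ifs
    · rw [map_one]
    · rw [map_zero]
      exact zero_le_one
  | cons r s ih =>
    rw [Multiset.map_cons, Multiset.map_cons, Multiset.prod_cons, Multiset.prod_cons]
    set q := (s.map fun r => Polynomial.X - Polynomial.C r).prod with hq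
    set B := (s.map fun r => max 1 (w r)).prod with hB
    have hB0 : 0 ≤ B := (w.nonneg _).trans (ih 0)
    have h1 : B ≤ max 1 (w r) * B := le_mul_of_one_le_left hB0 (le_max_left _ _)
    have h2 : ∀ m, w (r * q.coeff m) ≤ max 1 (w r) * B := by
      intro m
      rw [map_mul]
      exact mul_le_mul (le_max_right _ _) (ih m) (w.nonneg _)
        (zero_le_one.trans (le_max_left _ _))
    cases n with
    | zero =>
      rw [sub_mul, Polynomial.coeff_sub, Polynomial.mul_coeff_zero, Polynomial.coeff_X_zero,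
        zero_mul, Polynomial.coeff_C_mul, zero_sub, w.map_neg]
      exact h2 0
    | succ n =>
      rw [sub_mul, Polynomial.coeff_sub, Polynomial.coeff_X_mul, Polynomial.coeff_C_mul,
        sub_eq_add_neg]
      refine (hw _ _).trans (max_le ((ih n).trans h1) ?_)
      rw [w.map_neg]
      exact h2 (n + 1)

theorem coef_ar (s : Multiset L) (n : ℕ) :
    w ((s.map fun r => Polynomial.X - Polynomial.C r).prod.coeff n) ≤
      2 ^ Multiset.card s * (s.map fun r => max 1 (w r)).prod := by
  induction s using Multiset.induction_on generalizing n with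
  | empty =>
    simp only [Multiset.map_zero, Multiset.prod_zero, Polynomial.coeff_one, Multiset.card_zero,
      pow_zero, one_mul]
    split_ifs
    · rw [map_one]
    · rw [map_zero]
      exact zero_le_one
  | cons r s ih =>
    rw [Multiset.map_cons, Multiset.map_cons, Multiset.prod_cons, Multiset.prod_cons,
      Multiset.card_cons]
    set q := (s.map fun r => Polynomial.X - Polynomial.C r).prod with hq
    set B := (s.map fun r => max 1 (w r)).prod with hB
    set A := (2 : ℝ) ^ Multiset.card s * B with hA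
    have hB0 : 0 ≤ A := (w.nonneg _).trans (ih 0)
    have h1 : A ≤ max 1 (w r) * A := le_mul_of_one_le_left hB0 (le_max_left _ _)
    have h2 : ∀ m, w (r * q.coeff m) ≤ max 1 (w r) * A := by
      intro m
      rw [map_mul]
      exact mul_le_mul (le_max_right _ _) (ih m) (w.nonneg _)
        (zero_le_one.trans (le_max_left _ _))
    have e : (2 : ℝ) ^ (Multiset.card s + 1) * (max 1 (w r) * B) =
        max 1 (w r) * A + max 1 (w r) * A := by
      rw [hA]
      ring
    rw [e]
    have h3 : 0 ≤ max 1 (w r) * A := hB0.trans h1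
    cases n with
    | zero =>
      rw [sub_mul, Polynomial.coeff_sub, Polynomial.mul_coeff_zero, Polynomial.coeff_X_zero,
        zero_mul, Polynomial.coeff_C_mul, zero_sub, w.map_neg]
      linarith [h2 0]
    | succ n =>
      rw [sub_mul, Polynomial.coeff_sub, Polynomial.coeff_X_mul, Polynomial.coeff_C_mul]
      refine (w.sub_le_add _ _).trans (add_le_add ((ih n).trans h1) (h2 (n + 1)))

/-- the non-archimedean estimate -/
theorem na_bd {N : ℕ} (hw : NA w) (p U : Fin N → Polynomial L) (hU : ∑ i, U i * p i = 1) (t : L)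
    (ht : w t ≤ 1) (m : ℝ) (hm0 : 0 ≤ m) (hm : ∀ i, w ((p i).eval t) ≤ m) :
    1 ≤ (∏ i, cn w (U i)) * m := by
  have h1 : 1 ≤ ∏ i, cn w (U i) := one_le_prodR _ _ fun _ _ => one_le_cn w _
  have h2 : ∀ i, cn w (U i) ≤ ∏ i, cn w (U i) := fun i =>
    le_prodR _ (fun i => cn w (U i)) (fun _ _ => one_le_cn w _) (Finset.mem_univ i)
  have e : (1 : L) = ∑ i, (U i).eval t * (p i).eval t := by
    have := congrArg (Polynomial.eval t) hU
    rw [Polynomial.eval_finsetSum, Polynomial.eval_one] at this
    rw [← this]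
    exact Finset.sum_congr rfl fun i _ => by rw [Polynomial.eval_mul]
  have h3 : w (1 : L) ≤ (∏ i, cn w (U i)) * m := by
    rw [e]
    apply na_sum w hw _ _ _ (mul_nonneg (zero_le_one.trans h1) hm0)
    intro i _
    rw [map_mul]
    exact mul_le_mul ((eval_le_cn w hw (U i) t ht).trans (h2 i)) (hm i) (w.nonneg _)
      (zero_le_one.trans h1)
  rwa [map_one] at h3

/-- the archimedean estimate -/
theorem ar_bd {N : ℕ} (hw : ∀ n : ℕ, w (n : L) = n) (p U : Fin N → Polynomial L)
    (hU : ∑ i, U i * p i = 1) (D : ℕ) (hp : ∀ i, (p i).natDegree ≤ D)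
    (hD : ∃ i, (p i).coeff D ≠ 0) :
    ∃ B : ℝ, 1 ≤ B ∧ ∀ t : ℤ, t ≠ 0 → ∀ m : ℝ, 0 ≤ m → (∀ i, w ((p i).eval (t : L)) ≤ m) →
      |(t : ℝ)| ^ D ≤ B * m := by
  obtain ⟨i₀, hi₀⟩ := hD
  obtain ⟨c, T, hc, hT, hlow⟩ := low_big w hw (p i₀) D (hp i₀) hi₀
  obtain ⟨E, hE⟩ : ∃ E, E = ∑ i, an w (U i) * T ^ (U i).natDegree := ⟨_, rfl⟩
  have hT0 : 0 ≤ T := by linarith
  have hE0 : 0 ≤ E := by
    rw [hE]
    exact Finset.sum_nonneg fun _ _ => mul_nonneg (an_nonneg w _) (pow_nonneg hT0 _)
  have hET : 0 ≤ E * T ^ D := mul_nonneg hE0 (pow_nonneg hT0 _)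
  refine ⟨1 + c + E * T ^ D, by linarith, fun t ht m hm0 hm => ?_⟩
  by_cases hbig : T ≤ |(t : ℝ)|
  · refine (hlow t ht hbig).trans ?_
    apply mul_le_mul _ (hm i₀) (w.nonneg _)
    · linarith
    · linarith
  · push Not at hbig
    have e : (1 : L) = ∑ i, (U i).eval (t : L) * (p i).eval (t : L) := by
      have := congrArg (Polynomial.eval (t : L)) hU
      rw [Polynomial.eval_finsetSum, Polynomial.eval_one] at this
      rw [← this]
      exact Finset.sum_congr rfl fun i _ => by rw [Polynomial.eval_mul]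
    have h3 : w (1 : L) ≤ E * m := by
      rw [e, hE, Finset.sum_mul]
      refine (w.sum_le _ _).trans (Finset.sum_le_sum fun i _ => ?_)
      rw [map_mul]
      apply mul_le_mul _ (hm i) (w.nonneg _)
      · exact mul_nonneg (an_nonneg w _) (pow_nonneg hT0 _)
      · refine (eval_le_an w hw (U i) _ le_rfl t ht).trans ?_
        apply mul_le_mul_of_nonneg_left _ (an_nonneg w _)
        exact pow_le_pow_left₀ (abs_nonneg _) hbig.le _
    rw [map_one] at h3
    have h4 : |(t : ℝ)| ^ D ≤ T ^ D := pow_le_pow_left₀ (abs_nonneg _) hbig.le _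
    have h5 : 0 ≤ T ^ D := pow_nonneg hT0 _
    calc |(t : ℝ)| ^ D ≤ T ^ D * 1 := by rw [mul_one]; exact h4
      _ ≤ T ^ D * (E * m) := mul_le_mul_of_nonneg_left h3 h5
      _ = (E * T ^ D) * m := by ring
      _ ≤ _ := mul_le_mul_of_nonneg_right (by linarith) hm0

theorem sz_single (r : L) : sz w ![r, 0, 0] = max 1 (w r) := by
  unfold sz
  simp only [Matrix.cons_val_zero, Matrix.cons_val_one, Matrix.cons_val, map_zero]
  rw [max_self, max_eq_left (w.nonneg r)]

theorem log_prod (s : Multiset L) : Real.log (s.map fun r => max 1 (w r)).prod =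
    (s.map fun r => Real.log (sz w ![r, 0, 0])).sum ∧ 1 ≤ (s.map fun r => max 1 (w r)).prod := by
  induction s using Multiset.induction_on with
  | empty => simp
  | cons r s ih =>
    rw [Multiset.map_cons, Multiset.map_cons, Multiset.prod_cons, Multiset.sum_cons, sz_single]
    have h1 : 1 ≤ max 1 (w r) := le_max_left _ _
    refine ⟨?_, one_le_mul_of_one_le_of_one_le h1 ih.2⟩
    rw [Real.log_mul (by linarith) (by linarith [ih.2]), ih.1]

/-- the coefficients -/
theorem coef_eq {E : ℕ} (y : Fin (E + 1) → L) (s : Multiset L)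
    (h : ∑ j : Fin (E + 1), Polynomial.C (y j) * Polynomial.X ^ (E - (j : ℕ)) =
      Polynomial.C (y 0) * (s.map fun r => Polynomial.X - Polynomial.C r).prod)
    (j : Fin (E + 1)) : y j = y 0 *
      (s.map fun r => Polynomial.X - Polynomial.C r).prod.coeff (E - (j : ℕ)) := by
  have h1 := congrArg (fun q => Polynomial.coeff q (E - (j : ℕ))) h
  simp only [Polynomial.finsetSum_coeff, Polynomial.coeff_C_mul, Polynomial.coeff_X_pow] at h1
  rw [← h1, Finset.sum_eq_single j]
  · rw [if_pos rfl, mul_one]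
  · intro i _ hi
    rw [if_neg, mul_zero]
    intro h2
    apply hi
    apply Fin.ext
    have := i.2
    have := j.2
    omega
  · intro h2
    exact absurd (Finset.mem_univ j) h2

theorem card_le {E : ℕ} (y : Fin (E + 1) → L) (h0 : y 0 ≠ 0) (s : Multiset L)
    (h : ∑ j : Fin (E + 1), Polynomial.C (y j) * Polynomial.X ^ (E - (j : ℕ)) =
      Polynomial.C (y 0) * (s.map fun r => Polynomial.X - Polynomial.C r).prod) :
    Multiset.card s ≤ E := by
  have h1 := congrArg Polynomial.natDegree h
  rw [Polynomial.natDegree_C_mul h0, Polynomial.natDegree_multiset_prod_X_sub_C_eq_card] at h1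
  rw [← h1]
  refine Polynomial.natDegree_sum_le_of_forall_le _ _ fun j _ => ?_
  refine (Polynomial.natDegree_C_mul_X_pow_le _ _).trans ?_
  omega

end gen

theorem ht_sum {K : IntermediateField ℚ Qb} (F : HFam K) (s : Multiset Qb) :
    (Function.support fun i =>
      (s.map fun r => Real.log (sz (F.abv i) ![r, 0, 0])).sum).Finite ∧
    ∑ᶠ i, (s.map fun r => Real.log (sz (F.abv i) ![r, 0, 0])).sum =
      (s.map fun r => F.ht ![r, 0, 0]).sum := by
  induction s using Multiset.induction_on with
  | empty => simp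
  | cons r s ih =>
    simp only [Multiset.map_cons, Multiset.sum_cons]
    have h1 := log_sz_finite F ![r, 0, 0]
    refine ⟨(h1.union ih.1).subset (Function.support_add _ _), ?_⟩
    rw [finsum_add_distrib h1 ih.1, ih.2]
    rfl

/-- heights of the roots of a family of polynomials along a line -/
theorem pf_HLN : T_HLN := by
  classical
  intro E Y p hY hYc hroot hp0 K F hK
  obtain ⟨U, hU⟩ := bezG p hroot
  have har : ∀ i ∈ F.arch, ∃ B : ℝ, 1 ≤ B ∧ ∀ t : ℤ, t ≠ 0 → ∀ m : ℝ, 0 ≤ m →
      (∀ j, F.abv i ((p j).eval (t : Qb)) ≤ m) → |(t : ℝ)| ^ Y ≤ B * m :=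
    fun i hi => ar_bd (F.abv i) (F.arch_nat i hi) p U hU Y hY hYc
  choose! B hB1 hB using har
  have hCc : Const F fun i => ∏ j, cn (F.abv i) (U j) :=
    const_prodG F Finset.univ _ fun j => cn_const F (U j)
  obtain ⟨Cn, hCn⟩ : ∃ Cn : F.ι → ℝ, Cn = fun i => ∏ j, cn (F.abv i) (U j) := ⟨_, rfl⟩
  rw [← hCn] at hCc
  obtain ⟨b, hb⟩ : ∃ b : F.ι → ℝ, b = fun i =>
    if i ∈ F.arch then Real.log (B i * 2 ^ E) else Real.log (Cn i) := ⟨_, rfl⟩
  have hbfin : (Function.support b).Finite := by
    refine (F.arch.finite_toSet.union hCc.log_finite).subset fun i hi => ?_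
    by_cases ha : i ∈ F.arch
    · exact Or.inl ha
    · right
      rw [hb, Function.mem_support] at hi
      simpa [ha] using hi
  refine ⟨∑ᶠ i, b i, fun t ht hpt s hs => ?_⟩
  have ht1 : (1 : ℝ) ≤ |(t : ℝ)| := by
    have := Int.one_le_abs ht
    exact_mod_cast this
  have htD : 0 < |(t : ℝ)| ^ Y := by positivity
  obtain ⟨y, hy⟩ : ∃ y : Fin (E + 1) → Qb, y = fun j => (p j).eval (t : Qb) := ⟨_, rfl⟩
  have hy0 : y 0 ≠ 0 := by rw [hy]; exact hpt
  have hs' : ∑ j : Fin (E + 1), Polynomial.C (y j) * Polynomial.X ^ (E - (j : ℕ)) =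
      Polynomial.C (y 0) * (s.map fun r => Polynomial.X - Polynomial.C r).prod := by
    rw [hy]
    exact hs
  have hcard := card_le y hy0 s hs'
  have hyK : y 0 ∈ K := by
    rw [hy]
    simp only
    rw [Polynomial.eval_eq_sum_range]
    exact sum_mem fun j _ => mul_mem (hK j) (pow_mem (intCast_mem K t) j)
  have hlogy : (Function.support fun i => Real.log (F.abv i (y 0))).Finite :=
    (F.finite (y 0) hy0).subset fun i hi h1 => hi (by simp only [h1, Real.log_one])
  obtain ⟨hsfin, hssum⟩ := ht_sum F s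
  obtain ⟨g, hg⟩ : ∃ g : F.ι → ℝ, g = fun i =>
    if i ∈ F.arch then Real.log (|(t : ℝ)| ^ Y) else 0 := ⟨_, rfl⟩
  have hgs : Function.support g ⊆ F.arch := by
    intro i hi
    by_contra hc
    apply hi
    rw [hg]
    exact if_neg hc
  have hgfin : (Function.support g).Finite := F.arch.finite_toSet.subset hgs
  have hgsum : (Y : ℝ) * (F.arch.card * Real.log |(t : ℝ)|) = ∑ᶠ i, g i := by
    rw [finsum_eq_sum_of_support_subset g hgs, hg]
    rw [Finset.sum_congr rfl fun i hi => if_pos hi, Finset.sum_const, nsmul_eq_mul, Real.log_pow]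
    ring
  have hle : ∀ i, g i ≤ Real.log (F.abv i (y 0)) +
      (s.map fun r => Real.log (sz (F.abv i) ![r, 0, 0])).sum + b i := by
    intro i
    obtain ⟨e1, e2⟩ := log_prod (F.abv i) s
    have hy0p : 0 < F.abv i (y 0) := (F.abv i).pos hy0
    set Mh := (s.map fun r => max 1 (F.abv i r)).prod with hMh
    have hMh0 : 0 < Mh := by linarith
    rw [← e1, hg, hb]
    by_cases ha : i ∈ F.arch
    · simp only [if_pos ha]
      have h1 : ∀ j, F.abv i ((p j).eval (t : Qb)) ≤ 2 ^ E * (F.abv i (y 0) * Mh) := by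
        intro j
        have h2 := coef_eq y s hs' j
        have h3 : (p j).eval (t : Qb) = y j := by rw [hy]
        rw [h3, h2, map_mul]
        have h4 := coef_ar (F.abv i) s (E - (j : ℕ))
        have h5 : (2 : ℝ) ^ Multiset.card s * Mh ≤ 2 ^ E * Mh :=
          mul_le_mul_of_nonneg_right (pow_le_pow_right₀ (by norm_num) hcard) hMh0.le
        calc F.abv i (y 0) * _ ≤ F.abv i (y 0) * (2 ^ E * Mh) :=
              mul_le_mul_of_nonneg_left (h4.trans h5) hy0p.le
          _ = _ := by ring
      have h6 := hB i ha t ht _ (by positivity) h1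
      have h7 := Real.log_le_log htD h6
      have hB0 : 0 < B i := by linarith [hB1 i ha]
      have e3 : B i * (2 ^ E * (F.abv i (y 0) * Mh)) = F.abv i (y 0) * Mh * (B i * 2 ^ E) := by
        ring
      rw [e3, Real.log_mul (by positivity) (by positivity),
        Real.log_mul hy0p.ne' hMh0.ne'] at h7
      exact h7
    · simp only [if_neg ha]
      have hna := F.na i ha
      have h1 : ∀ j, F.abv i ((p j).eval (t : Qb)) ≤ F.abv i (y 0) * Mh := by
        intro j
        have h2 := coef_eq y s hs' j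
        have h3 : (p j).eval (t : Qb) = y j := by rw [hy]
        rw [h3, h2, map_mul]
        exact mul_le_mul_of_nonneg_left (coef_na (F.abv i) hna s (E - (j : ℕ))) hy0p.le
      have h6 := na_bd (F.abv i) hna p U hU (t : Qb) (na_int _ hna t) _ (by positivity) h1
      have hC0 : 0 < Cn i := hCc.pos i
      have h7 := Real.log_le_log one_pos h6
      have e4 : (∏ j, cn (F.abv i) (U j)) * (F.abv i (y 0) * Mh) =
          F.abv i (y 0) * Mh * Cn i := by
        rw [hCn]
        ring
      rw [Real.log_one, e4, Real.log_mul (by positivity) hC0.ne',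
        Real.log_mul hy0p.ne' hMh0.ne'] at h7
      exact h7
  have hup : ∑ᶠ i, g i ≤ ∑ᶠ i, (Real.log (F.abv i (y 0)) +
      (s.map fun r => Real.log (sz (F.abv i) ![r, 0, 0])).sum + b i) := by
    apply finsum_le_finsum' hgfin _ hle
    exact (((hlogy.union hsfin).subset (Function.support_add _ _)).union hbfin).subset
      (Function.support_add _ _)
  rw [finsum_add_distrib ((hlogy.union hsfin).subset (Function.support_add _ _)) hbfin,
    finsum_add_distrib hlogy hsfin, F.prod _ hyK hy0, zero_add, hssum] at hup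
  rw [hgsum]
  exact hup

end Pool.Agent.H35.BKH
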